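import Pool.Agent.W644.NT.Alg

/-!
# The elements fixed by almost all Frobenius maps at primes `p ≡ 1 mod m` are in `ℚ(ζ_m)`
-/

set_option autoImplicit false
set_option linter.unusedSectionVars false

namespace Pool.Agent.W644.NT

open Polynomial IntermediateField NumberField Pool.Agent.H921R2.TatePole

universe u v

section den

/-- denominators of the elements of a finitely generated ring of algebraic numbers -/
lemma exists_den {K' : Type u} [Field K'] [CharZero K'] [Algebra.IsAlgebraic ℚ K']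
    (s : Finset K') :
    ∃ M : ℤ, M ≠ 0 ∧ ∀ b ∈ Algebra.adjoin ℤ (s : Set K'), ∃ k : ℕ, IsIntegral ℤ ((M : K') ^ k * b) := by
  classical
  have h1 : ∀ a : K', ∃ y : ℤ, y ≠ 0 ∧ IsIntegral ℤ (y • a) := by
    intro a
    have ha : IsAlgebraic ℚ a := Algebra.IsAlgebraic.isAlgebraic a
    have ha' : IsAlgebraic ℤ a := (IsFractionRing.isAlgebraic_iff ℤ ℚ K').2 ha
    obtain ⟨y, hy, h⟩ := ha'.exists_integral_multiple
    exact ⟨y, hy, h⟩
  choose y hy hint using h1
  refine ⟨∏ a ∈ s, y a, Finset.prod_ne_zero_iff.2 fun a _ => hy a, ?_⟩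
  set M : ℤ := ∏ a ∈ s, y a with hM
  have hMint : IsIntegral ℤ (M : K') := isIntegral_algebraMap
  intro b hb
  induction hb using Algebra.adjoin_induction with
  | mem a ha =>
    refine ⟨1, ?_⟩
    obtain ⟨c, hc⟩ := Finset.dvd_prod_of_mem y (show a ∈ s from ha)
    rw [pow_one, hM, hc]
    have : (((y a * c : ℤ)) : K') * a = (c : K') * (y a • a) := by
      rw [zsmul_eq_mul]
      push_cast
      ring
    rw [this]
    exact IsIntegral.mul isIntegral_algebraMap (hint a)
  | algebraMap r => exact ⟨0, by rw [pow_zero, one_mul]; exact isIntegral_algebraMap⟩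
  | add a b _ _ iha ihb =>
    obtain ⟨k, hk⟩ := iha
    obtain ⟨l, hl⟩ := ihb
    refine ⟨k + l, ?_⟩
    have : (M : K') ^ (k + l) * (a + b) = M ^ l * (M ^ k * a) + M ^ k * (M ^ l * b) := by ring
    rw [this]
    exact ((hMint.pow l).mul hk).add ((hMint.pow k).mul hl)
  | mul a b _ _ iha ihb =>
    obtain ⟨k, hk⟩ := iha
    obtain ⟨l, hl⟩ := ihb
    refine ⟨k + l, ?_⟩
    have : (M : K') ^ (k + l) * (a * b) = (M ^ k * a) * (M ^ l * b) := by ring
    rw [this]
    exact hk.mul hl

end den

section split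

variable {F : Type} [Field F] [NumberField F]

/-- almost all primes `≡ 1 mod m` split completely -/
lemma splits {L : Type u} [Field L] [CharZero L] [Algebra F L] {m : ℕ} (θ : 𝓞 F)
    (h : Algebra.adjoin ℚ {(θ : F)} = ⊤) (hθ : FrP m (algebraMap F L (θ : F))) :
    {p : ℕ | p.Prime ∧ p ≡ 1 [MOD m] ∧
      ¬ (minpoly ℤ θ).map (Int.castRingHom (ZMod p)) ∣ X ^ p - X}.Finite := by
  classical
  obtain ⟨K', iK, iA, iF, s, hs⟩ := FrP.point F (θ : F) hθ
  have : CharZero K' := charZero_of_injective_algebraMap (algebraMap F K').injective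
  have hfinQ : Module.Finite ℚ K' := Module.Finite.trans F K'
  have : Algebra.IsAlgebraic ℚ K' := Algebra.IsAlgebraic.of_finite ℚ K'
  obtain ⟨M, hM0, hM⟩ := exists_den s
  obtain ⟨N, hN0, hN⟩ := exists_index h
  have hint : IsIntegral ℤ θ := RingOfIntegers.isIntegral θ
  have hev : Ev m fun p => (minpoly ℤ θ).map (Int.castRingHom (ZMod p)) ∣ X ^ p - X := by
    refine (hs.and (Ev.of_gt (Q := fun p => ¬ ((p : ℤ) ∣ N * M)) (N * M).natAbs ?_)).mono ?_
    · intro p hp _ hlt hd
      have h1 := Int.natAbs_dvd_natAbs.2 hd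
      rw [Int.natAbs_natCast] at h1
      have := Nat.le_of_dvd (Int.natAbs_pos.2 (mul_ne_zero hN0 hM0)) h1
      omega
    · rintro p hp _ ⟨⟨b, hb, hbp⟩, hpNM⟩
      have : Fact p.Prime := ⟨hp⟩
      obtain ⟨k, hk⟩ := hM b hb
      -- the quotient in `F`
      set b0 : F := ((θ : F) ^ p - (θ : F)) / p with hb0
      have hp0 : (p : F) ≠ 0 := by exact_mod_cast hp.ne_zero
      have hp0' : (p : K') ≠ 0 := by exact_mod_cast hp.ne_zero
      have hbb : algebraMap F K' b0 = b := by
        rw [hb0, map_div₀, map_sub, map_pow, hbp, map_natCast]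
        field_simp
      have hint0 : IsIntegral ℤ ((M : F) ^ k * b0) := by
        have h1 : algebraMap F K' ((M : F) ^ k * b0) = (M : K') ^ k * b := by
          rw [map_mul, map_pow, map_intCast, hbb]
        have h2 : IsIntegral ℤ (algebraMap F K' ((M : F) ^ k * b0)) := by rw [h1]; exact hk
        have h3 := (isIntegral_algHom_iff (algebraMap F K').toIntAlgHom
          (algebraMap F K').injective).1 h2
        exact h3
      obtain ⟨A, hA⟩ := hN ⟨(M : F) ^ k * b0, hint0⟩
      have heq : ((N * M ^ k : ℤ) : 𝓞 F) * (θ ^ p - θ) = (p : 𝓞 F) * aeval θ A := by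
        rw [← hA]
        apply RingOfIntegers.ext
        push_cast
        simp only [map_mul, map_sub, map_pow, map_natCast, map_intCast]
        show (N : F) * (M : F) ^ k * ((θ : F) ^ p - (θ : F)) = (p : F) * ((N : F) * ((M : F) ^ k * b0))
        rw [hb0]
        field_simp
      have hdvd : minpoly ℤ θ ∣ C (N * M ^ k) * (X ^ p - X) - C (p : ℤ) * A := by
        apply minpoly.isIntegrallyClosed_dvd hint
        simp only [map_sub, map_mul, map_pow, aeval_X, aeval_C]
        rw [sub_eq_zero]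
        simpa using heq
      have h1 := Polynomial.map_dvd (Int.castRingHom (ZMod p)) hdvd
      rw [Polynomial.map_sub, Polynomial.map_mul, Polynomial.map_mul, Polynomial.map_sub,
        Polynomial.map_pow, map_X, map_C, map_C] at h1
      have hpz : (Int.castRingHom (ZMod p)) (p : ℤ) = 0 := by simp
      rw [hpz, C_0, zero_mul, sub_zero] at h1
      have hunit : IsUnit (C ((Int.castRingHom (ZMod p)) (N * M ^ k)) : (ZMod p)[X]) := by
        rw [isUnit_C, isUnit_iff_ne_zero]
        intro h0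
        rw [eq_intCast, ZMod.intCast_zmod_eq_zero_iff_dvd] at h0
        have hpp : Prime (p : ℤ) := Nat.prime_iff_prime_int.1 hp
        apply hpNM
        rcases hpp.dvd_mul.1 h0 with h2 | h2
        · exact Dvd.dvd.mul_right h2 _
        · exact Dvd.dvd.mul_left (hpp.dvd_of_dvd_pow h2) _
      exact (hunit.dvd_mul_left).1 h1
  exact hev

end split

section prim

/-- primitive elements in the big field -/
lemma exists_prim {k : Type v} [Field k] {L : Type u} [Field L] [Algebra k L]
    (F : IntermediateField k L) [FiniteDimensional k F] [Algebra.IsSeparable k F] :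
    ∃ α ∈ F, k⟮α⟯ = F := by
  obtain ⟨α, hα⟩ := Field.exists_primitive_element k F
  refine ⟨α, α.2, ?_⟩
  have h1 := congrArg (IntermediateField.map F.val) hα
  rw [adjoin_map, Set.image_singleton] at h1
  rw [show F.val α = (α : L) from rfl] at h1
  rw [h1]
  ext z
  simp

end prim

section main

variable {L : Type u} [Field L] [CharZero L]

lemma finrank_adjoin_root {m : ℕ} (hm : 0 < m) {ζ : L} (hζ : IsPrimitiveRoot ζ m) :
    Module.finrank ℚ ℚ⟮ζ⟯ = m.totient := by
  have hint : IsIntegral ℚ ζ := (hζ.isIntegral hm).tower_top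
  rw [adjoin.finrank hint, ← cyclotomic_eq_minpoly_rat hζ hm, natDegree_cyclotomic]

/-- **Main theorem** on Frobenius-fixed elements. -/
theorem FrP.mem_adjoin {m : ℕ} (hm : 0 < m) {ζ : L} (hζ : IsPrimitiveRoot ζ m) {x : L}
    (hx : FrP m x) : x ∈ ℚ⟮ζ⟯ := by
  classical
  have hxalg := hx.isAlgebraic hm
  have hζint : IsIntegral ℚ ζ := (hζ.isIntegral hm).tower_top
  set F : IntermediateField ℚ L := adjoin ℚ {x, ζ} with hF
  have hfd : FiniteDimensional ℚ F := by
    rw [hF]
    apply finiteDimensional_adjoin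
    rintro y (rfl | hy)
    · exact hxalg.isIntegral
    · rw [Set.mem_singleton_iff.1 hy]
      exact hζint
  have hFfr : ∀ y ∈ F, FrP m y := by
    let S : IntermediateField ℚ L := (FrF m L).toIntermediateField fun q => by
      rw [eq_ratCast]
      exact SubfieldClass.ratCast_mem _ q
    have h1 : F ≤ S := by
      rw [hF, adjoin_le_iff]
      rintro y (rfl | hy)
      · exact hx
      · rw [Set.mem_singleton_iff.1 hy]
        exact FrP.root hζ.pow_eq_one
    intro y hy
    exact h1 hy
  -- a primitive integral element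
  obtain ⟨α, hαm, hαF⟩ := exists_prim F
  have halg : IsAlgebraic ℤ α := by
    rw [IsFractionRing.isAlgebraic_iff ℤ ℚ L]
    have h1 : IsAlgebraic ℚ (⟨α, hαm⟩ : F) := Algebra.IsAlgebraic.isAlgebraic _
    exact (isAlgebraic_algHom_iff F.val F.val.injective).2 h1
  obtain ⟨y, hy0, hyint⟩ := halg.exists_integral_multiple
  set θ1 : L := y • α with hθ1
  have hθF : ℚ⟮θ1⟯ = F := by
    rw [← hαF]
    have hy0' : (y : L) ≠ 0 := by exact_mod_cast hy0
    apply le_antisymm
    · rw [adjoin_simple_le_iff, hθ1, zsmul_eq_mul]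
      exact mul_mem (intCast_mem _ y) (mem_adjoin_simple_self ℚ _)
    · rw [adjoin_simple_le_iff]
      have h1 : (α : L) = (y : L)⁻¹ * θ1 := by
        rw [hθ1, zsmul_eq_mul, inv_mul_cancel_left₀ hy0']
      have h2 : (y : L)⁻¹ * θ1 ∈ ℚ⟮θ1⟯ :=
        mul_mem (inv_mem (intCast_mem _ y)) (mem_adjoin_simple_self ℚ _)
      rw [h1]
      exact h2
  have hθint : IsIntegral ℚ θ1 := hyint.tower_top
  -- the number field
  let g : ℚ[X] := minpoly ℚ θ1
  have hirr : Irreducible g := minpoly.irreducible hθint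
  have : Fact (Irreducible g) := ⟨hirr⟩
  let F0 := AdjoinRoot g
  have hfd0 : FiniteDimensional ℚ F0 :=
    (AdjoinRoot.powerBasis hirr.ne_zero).finite
  have : CharZero F0 := charZero_of_injective_algebraMap (algebraMap ℚ F0).injective
  have : NumberField F0 := ⟨⟩
  let ι : F0 →+* L := AdjoinRoot.lift (algebraMap ℚ L) θ1 (by
    rw [← aeval_def]
    exact minpoly.aeval ℚ θ1)
  let iA : Algebra F0 L := ι.toAlgebra
  have hroot : ι (AdjoinRoot.root g) = θ1 := AdjoinRoot.lift_root _
  have hrint : IsIntegral ℤ (AdjoinRoot.root g) := by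
    have h2 : IsIntegral ℤ (ι.toIntAlgHom (AdjoinRoot.root g)) := by
      show IsIntegral ℤ (ι (AdjoinRoot.root g))
      rw [hroot]
      exact hyint
    exact (isIntegral_algHom_iff ι.toIntAlgHom ι.injective).1 h2
  let θ : 𝓞 F0 := ⟨AdjoinRoot.root g, hrint⟩
  have hgen : Algebra.adjoin ℚ {(θ : F0)} = ⊤ := AdjoinRoot.adjoinRoot_eq_top
  have hsp := splits (L := L) (m := m) θ hgen (by
    show FrP m (ι (AdjoinRoot.root g))
    rw [hroot]
    apply hFfr
    rw [← hθF]
    exact mem_adjoin_simple_self ℚ _)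
  -- the cyclotomic field
  have : NeZero m := ⟨hm.ne'⟩
  have : NeZero ((m : ℕ) : ℚ) := ⟨by exact_mod_cast hm.ne'⟩
  have hcyc : IsCyclotomicExtension {m} ℚ (CyclotomicField m ℚ) :=
    CyclotomicField.isCyclotomicExtension m ℚ
  have hz := IsCyclotomicExtension.zeta_spec m ℚ (CyclotomicField m ℚ)
  have hzint : IsPrimitiveRoot (hz.toInteger) m := hz.toInteger_isPrimitiveRoot
  have hle := finrank_le hm hzint hgen hsp
  rw [IsCyclotomicExtension.finrank (K := ℚ) (n := m) (CyclotomicField m ℚ)
    (cyclotomic.irreducible_rat hm)] at hle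
  have hF0 : Module.finrank ℚ F0 = Module.finrank ℚ F := by
    rw [← hθF, adjoin.finrank hθint]
    exact (AdjoinRoot.powerBasis hirr.ne_zero).finrank.trans (AdjoinRoot.powerBasis_dim _)
  rw [hF0] at hle
  have hζF : ℚ⟮ζ⟯ ≤ F := by
    rw [adjoin_simple_le_iff, hF]
    exact subset_adjoin ℚ _ (by simp)
  have heq : ℚ⟮ζ⟯ = F := by
    apply IntermediateField.eq_of_le_of_finrank_le hζF
    rw [finrank_adjoin_root hm hζ]
    exact hle
  rw [heq, hF]
  exact subset_adjoin ℚ _ (by simp)

end main

end Pool.Agent.W644.NT
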