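import Pool.Agent.W644.NT.Fr

/-!
# The elements fixed by almost all Frobenius maps are algebraic
-/

set_option autoImplicit false
set_option linter.unusedSectionVars false

namespace Pool.Agent.W644.NT

open Polynomial IntermediateField

universe u v

/-- Zariski's lemma over a field -/
theorem exists_point' (k : Type v) [Field k] (T : Type u) [CommRing T] [Nontrivial T] [Algebra k T]
    [Algebra.FiniteType k T] :
    ∃ (L : Type u) (_ : Field L) (_ : Algebra k L) (_ : Module.Finite k L),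
      Nonempty (T →ₐ[k] L) := by
  obtain ⟨m, hm⟩ := Ideal.exists_maximal T
  let i1 : Field (T ⧸ m) := Ideal.Quotient.field m
  have h2 : @Module.Finite k (T ⧸ m) _ _ (Ideal.Quotient.algebra k (I := m)).toModule :=
    @finite_of_finite_type_of_isJacobsonRing k (T ⧸ m) _ i1 (Ideal.Quotient.algebra k (I := m)) _
      (inferInstance)
  exact ⟨T ⧸ m, i1, Ideal.Quotient.algebra k (I := m), h2, ⟨Ideal.Quotient.mkₐ k m⟩⟩

variable {L : Type u} [Field L] [CharZero L]

/-- reduction to a finite extension of a subfield containing `x` -/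
lemma FrP.point {m : ℕ} (k : Type v) [Field k] [Algebra k L] (x : k)
    (hx : FrP m (algebraMap k L x)) :
    ∃ (K' : Type u) (_ : Field K') (_ : Algebra k K') (_ : Module.Finite k K'),
      FrP m (algebraMap k K' x) := by
  classical
  obtain ⟨s, hs⟩ := hx
  let T : Subalgebra k L := Algebra.adjoin k (s : Set L)
  have hft : Algebra.FiniteType k T := by
    rw [← Subalgebra.fg_iff_finiteType]
    exact ⟨s, rfl⟩
  obtain ⟨K', i1, i2, i3, ⟨π⟩⟩ := exists_point' k T
  refine ⟨K', i1, i2, i3, ?_⟩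
  have hsT : ∀ a ∈ s, a ∈ T := fun a ha => Algebra.subset_adjoin ha
  let s' : Finset K' := s.attach.image fun a => π ⟨a.1, hsT a.1 a.2⟩
  have hAT : ∀ b ∈ Algebra.adjoin ℤ (s : Set L), b ∈ T := by
    intro b hb
    have h1 : Algebra.adjoin ℤ (s : Set L) ≤ T.restrictScalars ℤ := by
      rw [Algebra.adjoin_le_iff]
      intro a ha
      exact hsT a ha
    exact h1 hb
  have hmap : ∀ b (hb : b ∈ Algebra.adjoin ℤ (s : Set L)),
      π ⟨b, hAT b hb⟩ ∈ Algebra.adjoin ℤ (s' : Set K') := by
    intro b hb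
    have key : ∀ b (hb : b ∈ Algebra.adjoin ℤ (s : Set L)) (hbT : b ∈ T),
        π ⟨b, hbT⟩ ∈ Algebra.adjoin ℤ (s' : Set K') := by
      intro b hb
      induction hb using Algebra.adjoin_induction with
      | mem a ha =>
        intro hbT
        apply Algebra.subset_adjoin
        rw [Finset.mem_coe, Finset.mem_image]
        exact ⟨⟨a, ha⟩, Finset.mem_attach _ _, rfl⟩
      | algebraMap r =>
        intro hbT
        have h1 : π ⟨algebraMap ℤ L r, hbT⟩ = (r : K') := by
          have h2 : (⟨algebraMap ℤ L r, hbT⟩ : T) = (r : T) := Subtype.ext (by simp)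
          rw [h2, map_intCast]
        rw [h1]
        exact intCast_mem _ r
      | add a b ha hb iha ihb =>
        intro hbT
        have h1 : π ⟨a + b, hbT⟩ = π ⟨a, hAT a ha⟩ + π ⟨b, hAT b hb⟩ := by
          rw [← map_add]
          rfl
        rw [h1]
        exact Subalgebra.add_mem _ (iha _) (ihb _)
      | mul a b ha hb iha ihb =>
        intro hbT
        have h1 : π ⟨a * b, hbT⟩ = π ⟨a, hAT a ha⟩ * π ⟨b, hAT b hb⟩ := by
          rw [← map_mul]
          rfl
        rw [h1]
        exact Subalgebra.mul_mem _ (iha _) (ihb _)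
    exact key b hb _
  refine ⟨s', hs.mono ?_⟩
  rintro p hp _ ⟨b, hb, hxb⟩
  refine ⟨π ⟨b, hAT b hb⟩, hmap b hb, ?_⟩
  have h1 : (algebraMap k T x) ^ p - algebraMap k T x = (p : T) * ⟨b, hAT b hb⟩ :=
    Subtype.ext (by simpa using hxb)
  have h2 := congrArg π h1
  rw [map_sub, map_pow, map_mul, map_natCast, AlgHom.commutes] at h2
  exact h2

omit [Field L] [CharZero L] in
lemma exists_hom {k : Type*} [Field k] {K1 : Type*} [Field K1] [Algebra k K1] {Ω : Type*} [Field Ω]
    [Algebra k Ω] (x : K1) (hx : Transcendental k x) (y : Ω) (hy : Transcendental k y) :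
    ∃ j : k⟮x⟯ →+* Ω, j (AdjoinSimple.gen k x) = y := by
  refine ⟨(IntermediateField.val k⟮y⟯).toRingHom.comp
    ((RatFunc.algEquivOfTranscendental y hy).toRingEquiv.toRingHom.comp
    ((RatFunc.algEquivOfTranscendental x hx).symm.toRingEquiv.toRingHom)), ?_⟩
  show (IntermediateField.val k⟮y⟯) ((RatFunc.algEquivOfTranscendental y hy)
      ((RatFunc.algEquivOfTranscendental x hx).symm (AdjoinSimple.gen k x))) = _
  rw [RatFunc.algEquivOfTranscendental_symm_gen]
  exact RatFunc.algEquivOfTranscendental_X _ _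

omit [Field L] [CharZero L] in
lemma exists_ext {k : Type*} [Field k] {K1 : Type*} [Field K1] [Algebra k K1] [Module.Finite k K1]
    {Ω : Type*} [Field Ω] [IsAlgClosed Ω] (j : k →+* Ω) :
    ∃ τ : K1 →+* Ω, ∀ a, τ (algebraMap k K1 a) = j a := by
  let iΩ : Algebra k Ω := j.toAlgebra
  have halg : Algebra.IsAlgebraic k K1 := Algebra.IsAlgebraic.of_finite k K1
  let τ : K1 →ₐ[k] Ω := IsAlgClosed.lift
  exact ⟨τ.toRingHom, fun a => τ.commutes a⟩

/-- the elements fixed by almost all Frobenius maps are algebraic -/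
theorem FrP.isAlgebraic {m : ℕ} (hm : 0 < m) {x : L} (hx : FrP m x) : IsAlgebraic ℚ x := by
  by_contra htr
  have htr' : Transcendental ℚ x := htr
  set F1 := ℚ⟮x⟯ with hF1
  obtain ⟨K', iK, iA, iF, hK⟩ := FrP.point (L := L) F1 (AdjoinSimple.gen ℚ x) (by
    rw [AdjoinSimple.algebraMap_gen]
    exact hx)
  -- an algebraically closed field
  let Ω := AlgebraicClosure K'
  have : CharZero K' := charZero_of_injective_algebraMap (algebraMap F1 K').injective
  have hcz : CharZero Ω := charZero_of_injective_algebraMap (algebraMap K' Ω).injective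
  -- a root of unity
  obtain ⟨ℓ, hℓm, hℓ⟩ := Nat.exists_infinite_primes (m + 3)
  have : NeZero ((ℓ : ℕ) : Ω) := ⟨by exact_mod_cast hℓ.ne_zero⟩
  obtain ⟨ω, hω⟩ := IsAlgClosed.exists_root (cyclotomic ℓ Ω) (by
    have := (degree_cyclotomic_pos ℓ Ω hℓ.pos).ne'
    exact this)
  have hprim : IsPrimitiveRoot ω ℓ := isRoot_cyclotomic_iff.1 hω
  have hω1 : ω ≠ 1 := hprim.ne_one hℓ.one_lt
  have hω0 : ω ≠ 0 := hprim.ne_zero hℓ.ne_zero
  -- the two embeddings
  let j1 : F1 →+* Ω := (algebraMap K' Ω).comp (algebraMap F1 K')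
  set x0 : Ω := j1 (AdjoinSimple.gen ℚ x) with hx0
  have hx0tr : Transcendental ℚ x0 := by
    intro halg
    apply htr'
    have h1 : IsAlgebraic ℚ (AdjoinSimple.gen ℚ x) := by
      have h2 : IsAlgebraic ℚ ((j1.toRatAlgHom) (AdjoinSimple.gen ℚ x)) := halg
      exact (isAlgebraic_algHom_iff j1.toRatAlgHom j1.injective).1 h2
    have h3 := (isAlgebraic_algHom_iff (IntermediateField.val ℚ⟮x⟯)
      (IntermediateField.val ℚ⟮x⟯).injective).2 h1
    simpa using h3
  have hx00 : x0 ≠ 0 := by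
    rintro h0
    rw [h0] at hx0tr
    exact hx0tr isAlgebraic_zero
  have hωalg : IsAlgebraic ℚ ω := by
    refine ⟨X ^ ℓ - 1, ?_, ?_⟩
    · exact X_pow_sub_C_ne_zero hℓ.pos (1 : ℚ)
    · simp [hprim.pow_eq_one]
  have hωx : Transcendental ℚ (ω * x0) := by
    intro halg
    apply hx0tr
    have h1 : x0 = ω⁻¹ * (ω * x0) := by rw [inv_mul_cancel_left₀ hω0]
    rw [h1]
    exact hωalg.inv.mul halg
  obtain ⟨j2, hj2⟩ := exists_hom x htr' (ω * x0) hωx
  -- extension of the second embedding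
  obtain ⟨τ, hτ⟩ := exists_ext (K1 := K') j2
  have h1 : FrP m (algebraMap K' Ω (algebraMap F1 K' (AdjoinSimple.gen ℚ x))) :=
    hK.map (algebraMap K' Ω)
  have h2 : FrP m (τ (algebraMap F1 K' (AdjoinSimple.gen ℚ x))) := hK.map τ
  have h3 : τ (algebraMap F1 K' (AdjoinSimple.gen ℚ x)) = ω * x0 := by
    rw [hτ]
    exact hj2
  rw [h3] at h2
  have h4 : FrP m ω := by
    have h5 : ω = (ω * x0) * x0⁻¹ := by rw [mul_inv_cancel_right₀ hx00]
    rw [h5]
    exact h2.mul h1.inv
  refine not_FrP_root hm hℓ (by omega) ?_ hprim.pow_eq_one hω1 h4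
  intro hd
  have := Nat.le_of_dvd hm hd
  omega

end Pool.Agent.W644.NT
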