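import Pool.Agent.H921R2.TatePole.Main
import Pool.Agent.H921R2.TatePole.Count

/-!
# Number fields of degree at most `φ(m)`: almost all primes `≡ 1 mod m` split completely
-/

set_option autoImplicit false
set_option linter.unusedSectionVars false

namespace Pool.Agent.W644.NT

open NumberField Polynomial Pool.Agent.H921R2.TatePole IsDedekindDomain Filter Topology

section lower

variable {F : Type} [Field F] [NumberField F]

/-- homomorphisms to the prime field from the roots of the minimal polynomial -/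
lemma finrank_le_hc {θ : 𝓞 F} (h : Algebra.adjoin ℚ {(θ : F)} = ⊤) {N : ℤ}
    (hN : ∀ x : 𝓞 F, ∃ A : ℤ[X], (N : 𝓞 F) * x = aeval θ A) (p : Nat.Primes)
    (hp : ¬ (((p : ℕ) : ℤ)) ∣ N)
    (hsplit : (minpoly ℤ θ).map (Int.castRingHom (ZMod (p : ℕ))) ∣ X ^ (p : ℕ) - X) :
    Module.finrank ℚ F ≤ hc (𝓞 F) (p : ℕ) := by
  classical
  have : Fact (p : ℕ).Prime := ⟨p.prop⟩
  have hint : IsIntegral ℤ θ := RingOfIntegers.isIntegral θ
  have hintQ : IsIntegral ℚ (θ : F) := (RingOfIntegers.isIntegral_coe θ).tower_top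
  set g : (ZMod (p : ℕ))[X] := (minpoly ℤ θ).map (Int.castRingHom (ZMod (p : ℕ))) with hg
  have hmonic : g.Monic := (minpoly.monic hint).map _
  have hdeg : Module.finrank ℚ F = g.natDegree := by
    have hB := (PowerBasis.ofAdjoinEqTop hintQ h).finrank
    rw [PowerBasis.ofAdjoinEqTop_dim] at hB
    have e : minpoly ℚ (θ : F) = (minpoly ℤ θ).map (algebraMap ℤ ℚ) :=
      minpoly.isIntegrallyClosed_eq_field_fractions ℚ F hint
    rw [hB, e, (minpoly.monic hint).natDegree_map, hg, (minpoly.monic hint).natDegree_map]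
  have hne : (X ^ (p : ℕ) - X : (ZMod (p : ℕ))[X]) ≠ 0 :=
    FiniteField.X_pow_card_sub_X_ne_zero _ p.prop.one_lt
  have hroots : (X ^ (p : ℕ) - X : (ZMod (p : ℕ))[X]).roots = Finset.univ.val := by
    have := FiniteField.roots_X_pow_card_sub_X (ZMod (p : ℕ))
    rwa [ZMod.card] at this
  have hsp : (X ^ (p : ℕ) - X : (ZMod (p : ℕ))[X]).Splits := by
    rw [splits_iff_card_roots, hroots,
      FiniteField.X_pow_card_sub_X_natDegree_eq _ p.prop.one_lt]
    simp [ZMod.card]
  have hgsp : g.Splits := hsp.of_dvd hne hsplit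
  have hgle : g.roots ≤ (X ^ (p : ℕ) - X : (ZMod (p : ℕ))[X]).roots := roots.le_of_dvd hne hsplit
  have hnodup : g.roots.Nodup := by
    rw [hroots] at hgle
    exact Multiset.nodup_of_le hgle Finset.univ.nodup
  have hcard : g.roots.toFinset.card = g.natDegree := by
    rw [Multiset.toFinset_card_of_nodup hnodup]
    exact splits_iff_card_roots.1 hgsp
  -- the homomorphisms
  have hex : ∀ t : g.roots.toFinset, ∃ ψ : 𝓞 F →+* ZMod (p : ℕ), ψ θ = t := by
    rintro ⟨t, ht⟩
    have ht' : g.eval t = 0 := (mem_roots hmonic.ne_zero).1 (Multiset.mem_toFinset.1 ht)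
    obtain ⟨ψ, hψ⟩ := extend_hom (aeval θ : ℤ[X] →ₐ[ℤ] 𝓞 F).toRingHom (N := N) (by
      intro b
      obtain ⟨A, hA⟩ := hN b
      exact ⟨A, hA.symm⟩) hp (eval₂RingHom (Int.castRingHom (ZMod (p : ℕ))) t) (by
      intro a ha
      rw [RingHom.mem_ker] at ha ⊢
      have hd : minpoly ℤ θ ∣ a := minpoly.isIntegrallyClosed_dvd hint ha
      obtain ⟨q, rfl⟩ := hd
      rw [map_mul]
      have h0 : (eval₂RingHom (Int.castRingHom (ZMod (p : ℕ))) t) (minpoly ℤ θ) = 0 := by
        rw [coe_eval₂RingHom, ← eval_map]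
        exact ht'
      rw [h0, zero_mul])
    refine ⟨ψ, ?_⟩
    have h1 := RingHom.congr_fun hψ X
    have h2 : (aeval θ : ℤ[X] →ₐ[ℤ] 𝓞 F).toRingHom X = θ := aeval_X θ
    rw [RingHom.comp_apply, h2] at h1
    rw [h1]
    simp
  choose ψ hψ using hex
  have hfin : Finite (𝓞 F →+* ZMod (p : ℕ)) := hom_finite p
  have hinj : Function.Injective ψ := by
    intro t t' ht
    apply Subtype.ext
    rw [← hψ t, ← hψ t', ht]
  have h3 := Nat.card_le_card_of_injective ψ hinj
  rw [Nat.card_eq_fintype_card, Fintype.card_coe, hcard, ← hdeg] at h3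
  exact h3

end lower

section upper

variable {E : Type} [Field E] [NumberField E]

lemma modEq_of_hc {ζ : 𝓞 E} {m : ℕ} (hm : 0 < m) (hζ : IsPrimitiveRoot ζ m) (p : Nat.Primes)
    (hp : ¬ (p : ℕ) ∣ m) (h : hc (𝓞 E) (p : ℕ) ≠ 0) : (p : ℕ) ≡ 1 [MOD m] := by
  have : Fact (p : ℕ).Prime := ⟨p.prop⟩
  have : NeZero m := ⟨hm.ne'⟩
  obtain ⟨φ⟩ : Nonempty (𝓞 E →+* ZMod (p : ℕ)) := by
    by_contra hcon
    rw [not_nonempty_iff] at hcon
    exact h Nat.card_of_isEmpty
  have hnz : NeZero ((m : ℕ) : ZMod (p : ℕ)) := by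
    constructor
    rw [Ne, ZMod.natCast_eq_zero_iff]
    exact hp
  have hroot : (cyclotomic m (𝓞 E)).IsRoot ζ := hζ.isRoot_cyclotomic hm
  have hroot' : (cyclotomic m (ZMod (p : ℕ))).IsRoot (φ ζ) := by
    rw [← map_cyclotomic m φ, IsRoot.def, eval_map, eval₂_hom, hroot, map_zero]
  have hprim : IsPrimitiveRoot (φ ζ) m := isRoot_cyclotomic_iff.1 hroot'
  have hne : φ ζ ≠ 0 := by
    intro h0
    have := hprim.pow_eq_one
    rw [h0, zero_pow hm.ne'] at this
    exact zero_ne_one this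
  have h1 : m ∣ (p : ℕ) - 1 := hprim.dvd_of_pow_eq_one _ (ZMod.pow_card_sub_one_eq_one hne)
  exact ((Nat.modEq_iff_dvd' p.prop.one_lt.le).2 h1).symm

end upper

section compare

variable {F : Type} [Field F] [NumberField F] {E : Type} [Field E] [NumberField E]

/-- the comparison of degrees -/
theorem finrank_le {m : ℕ} (hm : 0 < m) {ζ : 𝓞 E} (hζ : IsPrimitiveRoot ζ m)
    {θ : 𝓞 F} (h : Algebra.adjoin ℚ {(θ : F)} = ⊤)
    (hfin : {p : ℕ | p.Prime ∧ p ≡ 1 [MOD m] ∧
      ¬ (minpoly ℤ θ).map (Int.castRingHom (ZMod p)) ∣ X ^ p - X}.Finite) :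
    Module.finrank ℚ F ≤ Module.finrank ℚ E := by
  classical
  by_contra hcon
  push Not at hcon
  set D := Module.finrank ℚ F with hD
  set φ := Module.finrank ℚ E with hφ
  obtain ⟨N, hN0, hN⟩ := exists_index h
  -- the bad primes
  set S : Set Nat.Primes := {p | (p : ℕ) ∣ N.natAbs ∨ (p : ℕ) ∣ m ∨ ((p : ℕ) ≡ 1 [MOD m] ∧
      ¬ (minpoly ℤ θ).map (Int.castRingHom (ZMod (p : ℕ))) ∣ X ^ (p : ℕ) - X)} with hS
  have hSfin : S.Finite := by
    have hinj : Function.Injective (fun p : Nat.Primes => (p : ℕ)) := Nat.Primes.coe_nat_injective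
    have h1 : ({n : ℕ | n ∣ N.natAbs} ∪ ({n : ℕ | n ∣ m} ∪ {p : ℕ | p.Prime ∧ p ≡ 1 [MOD m] ∧
      ¬ (minpoly ℤ θ).map (Int.castRingHom (ZMod p)) ∣ X ^ p - X})).Finite := by
      refine Set.Finite.union ?_ (Set.Finite.union ?_ hfin)
      · exact (Set.finite_le_nat N.natAbs).subset fun n hn =>
          Nat.le_of_dvd (Int.natAbs_pos.2 hN0) hn
      · exact (Set.finite_le_nat m).subset fun n hn => Nat.le_of_dvd hm hn
    refine (h1.preimage (f := fun p : Nat.Primes => (p : ℕ)) hinj.injOn).subset ?_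
    rintro p (hp | hp | hp)
    · exact Or.inl hp
    · exact Or.inr (Or.inl hp)
    · exact Or.inr (Or.inr ⟨p.prop, hp⟩)
  have hgood : ∀ p : Nat.Primes, p ∉ S → D * R E p ≤ φ * R F p := by
    intro p hp
    rw [hS] at hp
    change ¬ (_ ∨ _ ∨ _) at hp
    push Not at hp
    obtain ⟨hp1, hp2, hp3⟩ := hp
    by_cases h0 : hc (𝓞 E) (p : ℕ) = 0
    · rw [R_eq_hc p, h0, mul_zero]
      exact Nat.zero_le _
    · have h1 := modEq_of_hc hm hζ p hp2 h0
      have h2 : D ≤ R F p := by
        rw [R_eq_hc p]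
        refine finrank_le_hc h hN p ?_ (hp3 h1)
        rw [Int.natCast_dvd]
        exact hp1
      have h3 : R E p ≤ φ := R_le p
      calc D * R E p ≤ R F p * φ := Nat.mul_le_mul h2 h3
        _ = φ * R F p := mul_comm _ _
  have hb1 := sum_R_bdd (K := F)
  have hb2 := sum_R_bdd (K := E)
  obtain ⟨C1, hC1⟩ := hb1
  obtain ⟨C2, hC2⟩ := hb2
  have hWt := W_tendsto.eventually_gt_atTop
    ((φ : ℝ) * C1 + D * C2 + D * φ * (hSfin.toFinset.card : ℝ))
  have hev : ∀ᶠ x : ℝ in 𝓝[>] 1, False := by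
    filter_upwards [hC1, hC2, hWt, self_mem_nhdsWithin] with x h1 h2 h3 hx
    have hx1 : (1 : ℝ) < x := hx
    have hs1 : Summable (fun p : Nat.Primes => ((R F p : ℝ) - 1) * w x p) :=
      bddmul_summable hx1 (C := D + 1) fun p => by
        have a1 : (R F p : ℝ) ≤ D := by exact_mod_cast R_le p
        have a0 : (0 : ℝ) ≤ (R F p : ℝ) := by positivity
        rw [abs_le]
        constructor <;> linarith [Nat.cast_nonneg (α := ℝ) D]
    have hs2 : Summable (fun p : Nat.Primes => ((R E p : ℝ) - 1) * w x p) :=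
      bddmul_summable hx1 (C := φ + 1) fun p => by
        have a1 : (R E p : ℝ) ≤ φ := by exact_mod_cast R_le p
        have a0 : (0 : ℝ) ≤ (R E p : ℝ) := by positivity
        rw [abs_le]
        constructor <;> linarith [Nat.cast_nonneg (α := ℝ) φ]
    have hsS : Summable (fun p : Nat.Primes => (if p ∈ hSfin.toFinset then (1 : ℝ) else 0) *
        w x p) := bddmul_summable hx1 (C := 1) fun p => by split_ifs <;> simp
    have hSle : ∑' p : Nat.Primes, (if p ∈ hSfin.toFinset then (1 : ℝ) else 0) * w x p ≤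
        hSfin.toFinset.card := by
      rw [tsum_eq_sum (s := hSfin.toFinset) (fun p hp => by rw [if_neg hp, zero_mul])]
      have hle : ∀ p ∈ hSfin.toFinset, (if p ∈ hSfin.toFinset then (1 : ℝ) else 0) * w x p ≤ 1 := by
        intro p hp
        rw [if_pos hp, one_mul]
        unfold w
        apply Real.rpow_le_one_of_one_le_of_nonpos
        · exact_mod_cast p.prop.one_lt.le
        · linarith
      calc _ ≤ ∑ p ∈ hSfin.toFinset, (1 : ℝ) := Finset.sum_le_sum hle
        _ = _ := by simp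
    have hW : W x = ∑' p, w x p := rfl
    have key : ∑' p : Nat.Primes, (D - φ : ℝ) * w x p ≤
        ∑' p : Nat.Primes, ((φ : ℝ) * (((R F p : ℝ) - 1) * w x p) -
          D * (((R E p : ℝ) - 1) * w x p) +
          D * φ * ((if p ∈ hSfin.toFinset then (1 : ℝ) else 0) * w x p)) := by
      refine Summable.tsum_le_tsum (fun p => ?_) ((w_summable hx1).mul_left _)
        (((hs1.mul_left _).sub (hs2.mul_left _)).add (hsS.mul_left _))
      have hw0 := w_nonneg x p
      have hkey : (D : ℝ) * R E p ≤ φ * R F p +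
          D * φ * (if p ∈ hSfin.toFinset then (1 : ℝ) else 0) := by
        split_ifs with hp
        · have a1 : (R E p : ℝ) ≤ φ := by exact_mod_cast R_le p
          have a2 : (0 : ℝ) ≤ D := Nat.cast_nonneg D
          have a3 : (0 : ℝ) ≤ φ * (R F p : ℝ) := by positivity
          nlinarith
        · have := hgood p (fun h => hp (hSfin.mem_toFinset.2 h))
          have h5 : (D : ℝ) * R E p ≤ φ * R F p := by exact_mod_cast this
          linarith
      nlinarith
    rw [Summable.tsum_add ((hs1.mul_left _).sub (hs2.mul_left _)) (hsS.mul_left _),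
      Summable.tsum_sub (hs1.mul_left _) (hs2.mul_left _), tsum_mul_left, tsum_mul_left,
      tsum_mul_left, tsum_mul_left, ← hW] at key
    have k1 := (abs_le.1 h1).2
    have k2 := (abs_le.1 h2).1
    have hD1 : (1 : ℝ) ≤ (D : ℝ) - φ := by
      have : (φ : ℝ) + 1 ≤ D := by exact_mod_cast hcon
      linarith
    have hW0 : 0 ≤ W x := W_nonneg x
    have e1 : W x ≤ ((D : ℝ) - φ) * W x := by nlinarith
    have e2 : (φ : ℝ) * ∑' p : Nat.Primes, ((R F p : ℝ) - 1) * w x p ≤ φ * C1 :=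
      mul_le_mul_of_nonneg_left k1 (Nat.cast_nonneg _)
    have e3 : (D : ℝ) * (-C2) ≤ D * ∑' p : Nat.Primes, ((R E p : ℝ) - 1) * w x p :=
      mul_le_mul_of_nonneg_left k2 (Nat.cast_nonneg _)
    have e4 : (D : ℝ) * φ * ∑' p : Nat.Primes, (if p ∈ hSfin.toFinset then (1 : ℝ) else 0) * w x p
        ≤ D * φ * hSfin.toFinset.card := mul_le_mul_of_nonneg_left hSle (by positivity)
    linarith
  exact (hev.exists).elim fun _ h => h

end compare

end Pool.Agent.W644.NT
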