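import Pool.Agent.W644.NT.Count
import Pool.Agent.H23R2.Fin

/-!
# Elements fixed by almost all Frobenius maps at the primes `p ≡ 1 mod m`
-/

set_option autoImplicit false
set_option linter.unusedSectionVars false

namespace Pool.Agent.W644.NT

open Polynomial

universe u v

section ev

/-- for all but finitely many primes `p ≡ 1 mod m` -/
def Ev (m : ℕ) (Q : ℕ → Prop) : Prop := {p : ℕ | p.Prime ∧ p ≡ 1 [MOD m] ∧ ¬ Q p}.Finite

lemma Ev.and {m : ℕ} {Q Q' : ℕ → Prop} (h : Ev m Q) (h' : Ev m Q') : Ev m fun p => Q p ∧ Q' p := by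
  refine (Set.Finite.union h h').subset ?_
  rintro p ⟨h1, h2, h3⟩
  by_cases hQ : Q p
  · exact Or.inr ⟨h1, h2, fun h4 => h3 ⟨hQ, h4⟩⟩
  · exact Or.inl ⟨h1, h2, hQ⟩

lemma Ev.mono {m : ℕ} {Q Q' : ℕ → Prop} (h : Ev m Q)
    (hQ : ∀ p, p.Prime → p ≡ 1 [MOD m] → Q p → Q' p) : Ev m Q' := by
  refine Set.Finite.subset h ?_
  rintro p ⟨h1, h2, h3⟩
  exact ⟨h1, h2, fun h4 => h3 (hQ p h1 h2 h4)⟩

lemma Ev.of_forall {m : ℕ} {Q : ℕ → Prop} (hQ : ∀ p, p.Prime → p ≡ 1 [MOD m] → Q p) : Ev m Q := by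
  have : {p : ℕ | p.Prime ∧ p ≡ 1 [MOD m] ∧ ¬ Q p} = ∅ := by
    ext p
    constructor
    · rintro ⟨h1, h2, h3⟩
      exact absurd (hQ p h1 h2) h3
    · rintro ⟨⟩
  unfold Ev
  rw [this]
  exact Set.finite_empty

lemma Ev.of_gt {m : ℕ} {Q : ℕ → Prop} (M : ℕ)
    (hQ : ∀ p, p.Prime → p ≡ 1 [MOD m] → M < p → Q p) : Ev m Q := by
  refine (Set.finite_le_nat M).subset ?_
  rintro p ⟨h1, h2, h3⟩
  show p ≤ M
  by_contra hcon
  exact h3 (hQ p h1 h2 (by omega))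

end ev

section fr

variable {L : Type u} [Field L]

/-- elements fixed by almost all Frobenius maps -/
def FrP (m : ℕ) (x : L) : Prop :=
  ∃ s : Finset L, Ev m fun p => ∃ b ∈ Algebra.adjoin ℤ (s : Set L), x ^ p - x = (p : L) * b

lemma FrP.one (m : ℕ) : FrP m (1 : L) :=
  ⟨∅, Ev.of_forall fun p _ _ => ⟨0, Subalgebra.zero_mem _, by simp⟩⟩

lemma FrP.zero (m : ℕ) : FrP m (0 : L) :=
  ⟨∅, Ev.of_forall fun p hp _ => ⟨0, Subalgebra.zero_mem _, by simp [hp.ne_zero]⟩⟩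

lemma FrP.mul {m : ℕ} {x y : L} (hx : FrP m x) (hy : FrP m y) : FrP m (x * y) := by
  classical
  obtain ⟨s, hs⟩ := hx
  obtain ⟨t, ht⟩ := hy
  have h1 : (s : Set L) ⊆ ((s ∪ (t ∪ {x, y}) : Finset L) : Set L) := by
    rw [Finset.coe_union]
    exact Set.subset_union_left
  have h2 : (t : Set L) ⊆ ((s ∪ (t ∪ {x, y}) : Finset L) : Set L) := by
    rw [Finset.coe_union, Finset.coe_union]
    exact Set.subset_union_left.trans Set.subset_union_right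
  refine ⟨s ∪ (t ∪ {x, y}), (hs.and ht).mono ?_⟩
  rintro p hp _ ⟨⟨b, hb, hxb⟩, ⟨b', hb', hyb⟩⟩
  have hxA : x ∈ Algebra.adjoin ℤ ((s ∪ (t ∪ {x, y}) : Finset L) : Set L) :=
    Algebra.subset_adjoin (by simp)
  have hyA : y ∈ Algebra.adjoin ℤ ((s ∪ (t ∪ {x, y}) : Finset L) : Set L) :=
    Algebra.subset_adjoin (by simp)
  refine ⟨x ^ p * b' + y * b, Subalgebra.add_mem _ (Subalgebra.mul_mem _
    (Subalgebra.pow_mem _ hxA _) (Algebra.adjoin_mono h2 hb')) (Subalgebra.mul_mem _ hyA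
    (Algebra.adjoin_mono h1 hb)), ?_⟩
  rw [mul_pow]
  linear_combination x ^ p * hyb + y * hxb

lemma FrP.add {m : ℕ} {x y : L} (hx : FrP m x) (hy : FrP m y) : FrP m (x + y) := by
  classical
  obtain ⟨s, hs⟩ := hx
  obtain ⟨t, ht⟩ := hy
  set A := Algebra.adjoin ℤ ((s ∪ (t ∪ {x, y}) : Finset L) : Set L) with hA
  have h1 : (s : Set L) ⊆ ((s ∪ (t ∪ {x, y}) : Finset L) : Set L) := by
    rw [Finset.coe_union]
    exact Set.subset_union_left
  have h2 : (t : Set L) ⊆ ((s ∪ (t ∪ {x, y}) : Finset L) : Set L) := by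
    rw [Finset.coe_union, Finset.coe_union]
    exact Set.subset_union_left.trans Set.subset_union_right
  refine ⟨s ∪ (t ∪ {x, y}), (hs.and ht).mono ?_⟩
  rintro p hp _ ⟨⟨b, hb, hxb⟩, ⟨b', hb', hyb⟩⟩
  have hxA : x ∈ A := Algebra.subset_adjoin (by simp)
  have hyA : y ∈ A := Algebra.subset_adjoin (by simp)
  obtain ⟨r, hr⟩ := (Commute.all (⟨x, hxA⟩ : A) ⟨y, hyA⟩).exists_add_pow_prime_eq hp
  have hr' : (x + y) ^ p = x ^ p + y ^ p + p * x * y * (r : L) := by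
    have := congrArg (fun a : A => (a : L)) hr
    simpa using this
  refine ⟨b + b' + x * y * r, Subalgebra.add_mem _ (Subalgebra.add_mem _
    (Algebra.adjoin_mono h1 hb) (Algebra.adjoin_mono h2 hb')) (Subalgebra.mul_mem _
    (Subalgebra.mul_mem _ hxA hyA) r.2), ?_⟩
  rw [hr']
  linear_combination hxb + hyb

lemma FrP.neg_one (m : ℕ) : FrP m (-1 : L) := by
  refine ⟨∅, Ev.of_gt 2 fun p hp _ h2 => ⟨0, Subalgebra.zero_mem _, ?_⟩⟩
  rw [(hp.odd_of_ne_two (by omega)).neg_one_pow]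
  simp

lemma FrP.neg {m : ℕ} {x : L} (hx : FrP m x) : FrP m (-x) := by
  rw [← neg_one_mul]
  exact (FrP.neg_one m).mul hx

lemma FrP.inv {m : ℕ} {x : L} (hx : FrP m x) : FrP m x⁻¹ := by
  classical
  by_cases h0 : x = 0
  · rw [h0, inv_zero]
    exact FrP.zero m
  obtain ⟨s, hs⟩ := hx
  have h1 : (s : Set L) ⊆ ((insert x⁻¹ s : Finset L) : Set L) := by
    rw [Finset.coe_insert]
    exact Set.subset_insert _ _
  refine ⟨insert x⁻¹ s, hs.mono ?_⟩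
  rintro p hp _ ⟨b, hb, hxb⟩
  have hxA : x⁻¹ ∈ Algebra.adjoin ℤ ((insert x⁻¹ s : Finset L) : Set L) :=
    Algebra.subset_adjoin (by simp)
  refine ⟨-(b * (x⁻¹ ^ p * x⁻¹)), Subalgebra.neg_mem _ (Subalgebra.mul_mem _
    (Algebra.adjoin_mono h1 hb) (Subalgebra.mul_mem _ (Subalgebra.pow_mem _ hxA _) hxA)), ?_⟩
  have h2 : (x⁻¹) ^ p * x ^ p = 1 := by
    rw [← mul_pow, inv_mul_cancel₀ h0, one_pow]
  have h3 : x⁻¹ * x = 1 := inv_mul_cancel₀ h0
  linear_combination (-(x⁻¹ ^ p * x⁻¹)) * hxb + x⁻¹ * h2 - x⁻¹ ^ p * h3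

/-- the field of the elements fixed by almost all Frobenius maps -/
def FrF (m : ℕ) (L : Type u) [Field L] : Subfield L where
  carrier := {x | FrP m x}
  mul_mem' := fun hx hy => FrP.mul hx hy
  one_mem' := FrP.one m
  add_mem' := fun hx hy => FrP.add hx hy
  zero_mem' := FrP.zero m
  neg_mem' := fun hx => FrP.neg hx
  inv_mem' := fun _ hx => FrP.inv hx

lemma FrP.root {m : ℕ} {x : L} (hx : x ^ m = 1) : FrP m x := by
  refine ⟨∅, Ev.of_forall fun p hp hpm => ⟨0, Subalgebra.zero_mem _, ?_⟩⟩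
  have h1 : m ∣ p - 1 := (Nat.modEq_iff_dvd' hp.one_lt.le).1 hpm.symm
  obtain ⟨k, hk⟩ := h1
  have h2 : x ^ p = x := by
    rw [show p = m * k + 1 by have := hp.one_lt; omega, pow_succ, pow_mul, hx, one_pow, one_mul]
  rw [h2]
  simp

lemma map_adjoin_int {L' : Type v} [Field L'] [DecidableEq L'] (τ : L →+* L') (s : Finset L)
    (b : L) (hb : b ∈ Algebra.adjoin ℤ (s : Set L)) :
    τ b ∈ Algebra.adjoin ℤ ((s.image τ : Finset L') : Set L') := by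
  have h1 : τ.toIntAlgHom b ∈ (Algebra.adjoin ℤ (s : Set L)).map τ.toIntAlgHom := ⟨b, hb, rfl⟩
  rw [AlgHom.map_adjoin] at h1
  rw [Finset.coe_image]
  exact h1

lemma FrP.map {m : ℕ} {L' : Type v} [Field L'] (τ : L →+* L') {x : L} (hx : FrP m x) :
    FrP m (τ x) := by
  classical
  obtain ⟨s, hs⟩ := hx
  refine ⟨s.image τ, hs.mono ?_⟩
  rintro p hp _ ⟨b, hb, hxb⟩
  refine ⟨τ b, map_adjoin_int τ s b hb, ?_⟩
  have h2 := congrArg τ hxb
  rw [map_sub, map_pow, map_mul, map_natCast] at h2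
  exact h2

end fr

section root

variable {L : Type u} [Field L] [CharZero L]

/-- a root of unity of odd prime order not dividing `m` is not fixed -/
lemma not_FrP_root {m ℓ : ℕ} (hm : 0 < m) (hℓ : ℓ.Prime) (h2 : 2 < ℓ) (hd : ¬ ℓ ∣ m) {x : L}
    (hx : x ^ ℓ = 1) (hx1 : x ≠ 1) : ¬ FrP m x := by
  rintro ⟨s, hs⟩
  have hcop : Nat.Coprime m ℓ := ((Nat.Prime.coprime_iff_not_dvd hℓ).2 hd).symm
  obtain ⟨a, ha1, ha2⟩ := Nat.chineseRemainder hcop 1 2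
  have hacop : Nat.Coprime a (m * ℓ) := by
    apply Nat.Coprime.mul_right
    · have h1 := ha1.gcd_eq
      rw [Nat.gcd_one_left] at h1
      exact h1
    · have h1 := ha2.gcd_eq
      have h3 : Nat.gcd 2 ℓ = 1 := (Nat.coprime_primes Nat.prime_two hℓ).2 (by omega)
      rw [h3] at h1
      exact h1
  have : NeZero (m * ℓ) := ⟨Nat.mul_ne_zero hm.ne' hℓ.ne_zero⟩
  have hinf := Nat.infinite_setOfPred_prime_and_eq_mod (q := m * ℓ) (a := (a : ZMod (m * ℓ)))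
    ((ZMod.isUnit_iff_coprime _ _).2 hacop)
  have hne : x ^ 2 - x ≠ 0 := by
    intro h0
    have hx0 : x ≠ 0 := by
      rintro rfl
      rw [zero_pow hℓ.ne_zero] at hx
      exact zero_ne_one hx
    have h3 : x * (x - 1) = 0 := by linear_combination h0
    rcases mul_eq_zero.1 h3 with h4 | h4
    · exact hx0 h4
    · exact hx1 (sub_eq_zero.1 h4)
  have hfin := Pool.Agent.H23R2.finite_dvd_primes s (x ^ 2 - x) hne
  apply hinf
  refine (Set.Finite.union hfin hs).subset ?_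
  rintro p ⟨hp, hpa⟩
  have hpa' : p ≡ a [MOD (m * ℓ)] := (ZMod.natCast_eq_natCast_iff _ _ _).1 hpa
  have hp1 : p ≡ 1 [MOD m] := (Nat.ModEq.of_mul_right ℓ hpa').trans ha1
  have hp2 : p ≡ 2 [MOD ℓ] := (Nat.ModEq.of_mul_left m hpa').trans ha2
  by_cases hQ : ∃ b ∈ Algebra.adjoin ℤ (s : Set L), x ^ p - x = (p : L) * b
  · left
    obtain ⟨b, hb, hxb⟩ := hQ
    refine ⟨hp, b, hb, ?_⟩
    rw [← hxb]
    congr 1
    rw [← Nat.mod_add_div p ℓ, pow_add, pow_mul, hx, one_pow, mul_one, hp2,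
      Nat.mod_eq_of_lt h2]
  · right
    exact ⟨hp, hp1, hQ⟩

end root

end Pool.Agent.W644.NT
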